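import Pool.Agent.H500.R2.Stm
import Pool.Agent.H500.AS.All
import Pool.Agent.H500.HC.All

set_option autoImplicit false
set_option linter.unusedSectionVars false

/-!
# Project R2, part 1: the structure at `l` of the characters of order dividing `m`
-/

namespace Pool.Agent.H294.R2.Str

open NumberField IsDedekindDomain Filter Topology Polynomial
open Pool.Agent.W401.Cheb (GK IsFrob IsInert dens)
open Pool.Agent.H500.HC (InRay IsRayChar TotPos QBar ZBar em typ jz)
open Pool.Agent.H500.R2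

/-! ### Transport of the values -/

section transport

variable {k : Type} [Field k] {m : ℕ} [NeZero m]

open scoped Classical in
/-- transport of the values along an isomorphism of the groups of the `m`-th roots of unity -/
noncomputable def tr (ι : rootsOfUnity m ℂ ≃* rootsOfUnity m k) (z : ℂ) : k :=
  if h : z ^ m = 1 then ((ι (rootsOfUnity.mkOfPowEq z h) : kˣ) : k) else 0

variable (ι : rootsOfUnity m ℂ ≃* rootsOfUnity m k)

theorem tr_of {z : ℂ} (h : z ^ m = 1) :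
    tr ι z = ((ι (rootsOfUnity.mkOfPowEq z h) : kˣ) : k) := by
  unfold tr
  rw [dif_pos h]

theorem tr_zero : tr ι 0 = 0 := by
  unfold tr
  rw [dif_neg]
  rw [zero_pow (NeZero.ne m)]
  exact zero_ne_one

theorem tr_one : tr ι 1 = 1 := by
  rw [tr_of ι (one_pow m)]
  have h : rootsOfUnity.mkOfPowEq (1 : ℂ) (one_pow m) = 1 := by
    apply Subtype.ext
    apply Units.ext
    rw [rootsOfUnity.val_mkOfPowEq_coe]
    rfl
  rw [h, map_one]
  rfl

theorem tr_mul {z w : ℂ} (hz : z ^ m = 1) (hw : w ^ m = 1) : tr ι (z * w) = tr ι z * tr ι w := by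
  have hzw : (z * w) ^ m = 1 := by rw [mul_pow, hz, hw, mul_one]
  rw [tr_of ι hz, tr_of ι hw, tr_of ι hzw]
  have h : rootsOfUnity.mkOfPowEq (z * w) hzw =
      rootsOfUnity.mkOfPowEq z hz * rootsOfUnity.mkOfPowEq w hw := by
    apply Subtype.ext
    apply Units.ext
    rw [rootsOfUnity.val_mkOfPowEq_coe]
    show _ = ((rootsOfUnity.mkOfPowEq z hz : ℂˣ) : ℂ) * ((rootsOfUnity.mkOfPowEq w hw : ℂˣ) : ℂ)
    rw [rootsOfUnity.val_mkOfPowEq_coe, rootsOfUnity.val_mkOfPowEq_coe]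
  rw [h, map_mul]
  rfl

theorem tr_ne {z : ℂ} (hz : z ^ m = 1) : tr ι z ≠ 0 := by
  rw [tr_of ι hz]
  exact Units.ne_zero _

theorem tr_pow {z : ℂ} (hz : z ^ m = 1) : tr ι z ^ m = 1 := by
  rw [tr_of ι hz, ← Units.val_pow_eq_pow_val]
  have h := (mem_rootsOfUnity m _).1 (ι (rootsOfUnity.mkOfPowEq z hz)).2
  rw [h, Units.val_one]

theorem tr_eq_one {z : ℂ} (hz : z ^ m = 1) (h : tr ι z = 1) : z = 1 := by
  rw [tr_of ι hz] at h
  have h1 : ι (rootsOfUnity.mkOfPowEq z hz) = 1 := by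
    apply Subtype.ext
    apply Units.ext
    rw [h]
    rfl
  rw [map_eq_one_iff ι ι.injective] at h1
  have h2 := rootsOfUnity.val_mkOfPowEq_coe (n := m) z hz
  rw [h1] at h2
  exact h2.symm

/-- the transported character -/
noncomputable def trChar {R : Type} [MonoidWithZero R] (χ : R →*₀ ℂ)
    (hχ : ∀ a, χ a ≠ 0 → χ a ^ m = 1) : R →*₀ k where
  toFun a := tr ι (χ a)
  map_zero' := by rw [map_zero, tr_zero]
  map_one' := by rw [map_one, tr_one]
  map_mul' a b := by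
    by_cases ha : χ a = 0
    · rw [map_mul, ha, zero_mul, tr_zero, zero_mul]
    · by_cases hb : χ b = 0
      · rw [map_mul, hb, mul_zero, tr_zero, mul_zero]
      · rw [map_mul, tr_mul ι (hχ a ha) (hχ b hb)]

theorem trChar_apply {R : Type} [MonoidWithZero R] (χ : R →*₀ ℂ)
    (hχ : ∀ a, χ a ≠ 0 → χ a ^ m = 1) (a : R) : trChar ι χ hχ a = tr ι (χ a) := rfl

theorem trChar_ne {R : Type} [MonoidWithZero R] (χ : R →*₀ ℂ)
    (hχ : ∀ a, χ a ≠ 0 → χ a ^ m = 1) (a : R) : trChar ι χ hχ a ≠ 0 ↔ χ a ≠ 0 := by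
  rw [trChar_apply]
  constructor
  · intro h h0
    rw [h0, tr_zero] at h
    exact h rfl
  · intro h
    exact tr_ne ι (hχ a h)

end transport

/-! ### Divisibility -/

theorem divis {S : Type} [Fintype S] (n m : ℕ) (hn : 0 < n) (a : S → ℕ)
    (h : ∀ s, n ∣ m * a s) (h0 : ¬ ∀ s, n ∣ a s) :
    ∃ (r D : ℕ) (c q : S → ℕ), r.Prime ∧ r ∣ m ∧ r ∣ n ∧ (∃ s, ¬ r ∣ c s) ∧ (∀ s, c s < r) ∧
      D ∣ n / r ∧ ∀ s, a s = (c s + r * q s) * D := by
  classical
  set D := Nat.gcd n (Finset.univ.gcd a) with hD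
  have hDn : D ∣ n := Nat.gcd_dvd_left _ _
  have hDa : ∀ s, D ∣ a s := fun s =>
    (Nat.gcd_dvd_right _ _).trans (Finset.gcd_dvd (Finset.mem_univ s))
  have hD0 : 0 < D := Nat.gcd_pos_of_pos_left _ hn
  have hDmax : ∀ e : ℕ, e ∣ n → (∀ s, e ∣ a s) → e ∣ D := fun e h1 h2 =>
    Nat.dvd_gcd h1 (Finset.dvd_gcd fun s _ => h2 s)
  obtain ⟨t, ht⟩ := hDn
  have ht1 : t ≠ 1 := by
    rintro rfl
    rw [mul_one] at ht
    exact h0 fun s => by
      rw [ht]
      exact hDa s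
  have ht0 : 0 < t := by
    rcases Nat.eq_zero_or_pos t with h1 | h1
    · rw [h1, mul_zero] at ht
      omega
    · exact h1
  choose b hb using hDa
  have htm : t ∣ m := by
    have h1 : ∀ s, t ∣ m * b s := fun s => by
      have h2 := h s
      rw [ht, hb s, show m * (D * b s) = D * (m * b s) by ring] at h2
      exact Nat.dvd_of_mul_dvd_mul_left hD0 h2
    -- `t` and the `b s` have no common divisor
    have h2 : Nat.gcd t (Finset.univ.gcd b) = 1 := by
      have h3 : D * Nat.gcd t (Finset.univ.gcd b) ∣ D := by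
        refine hDmax _ ?_ ?_
        · rw [ht]
          exact Nat.mul_dvd_mul_left _ (Nat.gcd_dvd_left _ _)
        · intro s
          rw [hb s]
          exact Nat.mul_dvd_mul_left _
            ((Nat.gcd_dvd_right _ _).trans (Finset.gcd_dvd (Finset.mem_univ s)))
      have h4 := Nat.le_of_dvd hD0 h3
      have h5 : 0 < Nat.gcd t (Finset.univ.gcd b) := Nat.gcd_pos_of_pos_left _ ht0
      have h6 : D * Nat.gcd t (Finset.univ.gcd b) ≤ D * 1 := by rw [mul_one]; exact h4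
      have h7 := Nat.le_of_mul_le_mul_left h6 hD0
      omega
    have h3 : t ∣ m * Finset.univ.gcd b :=
      ((Finset.gcd_mul_left' (s := Finset.univ) (f := b) m).dvd_iff_dvd_right).1
        (Finset.dvd_gcd fun s _ => h1 s)
    have h4 : Nat.Coprime t (Finset.univ.gcd b) := h2
    exact h4.dvd_of_dvd_mul_right h3
  obtain ⟨r, hr, hrt⟩ := Nat.exists_prime_and_dvd ht1
  refine ⟨r, D, fun s => b s % r, fun s => b s / r, hr, hrt.trans htm, ?_, ?_, ?_, ?_, ?_⟩
  · rw [ht]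
    exact Dvd.dvd.mul_left hrt D
  · by_contra hcon
    push Not at hcon
    have h1 : ∀ s, r ∣ b s := fun s => by
      have := hcon s
      exact (Nat.dvd_mod_iff (dvd_refl r)).1 this
    have h2 : D * r ∣ D := by
      refine hDmax _ ?_ ?_
      · rw [ht]
        exact Nat.mul_dvd_mul_left _ hrt
      · intro s
        rw [hb s]
        exact Nat.mul_dvd_mul_left _ (h1 s)
    have h3 := Nat.le_of_dvd hD0 h2
    have h4 := hr.two_le
    nlinarith
  · exact fun s => Nat.mod_lt _ hr.pos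
  · obtain ⟨u, hu⟩ := hrt
    rw [ht, hu, show D * (r * u) = r * (D * u) by ring, Nat.mul_div_cancel_left _ hr.pos]
    exact Dvd.intro u rfl
  · intro s
    rw [hb s, Nat.mod_add_div, mul_comm]

/-! ### Fields -/

section fields

variable {E : Type} [Field E] [NumberField E]

theorem card_quot {lam : HeightOneSpectrum (𝓞 E)} :
    Nat.card (𝓞 E ⧸ lam.asIdeal) = Ideal.absNorm lam.asIdeal := rfl

/-- Fermat's little theorem -/
theorem fermat {lam : HeightOneSpectrum (𝓞 E)} (hl : (Ideal.absNorm lam.asIdeal).Prime)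
    {k : Type} [Field k] {φ : 𝓞 E →+* k} (hφ : RingHom.ker φ = lam.asIdeal) {y : 𝓞 E}
    (hy : y ∉ lam.asIdeal) : φ y ^ (Ideal.absNorm lam.asIdeal - 1) = 1 := by
  have hmax : lam.asIdeal.IsMaximal := lam.isMaximal
  let _ : Field (𝓞 E ⧸ lam.asIdeal) := Ideal.Quotient.field lam.asIdeal
  have hfin : Finite (𝓞 E ⧸ lam.asIdeal) := Nat.finite_of_card_ne_zero (by
    rw [card_quot]
    exact hl.ne_zero)
  have _ : Fintype (𝓞 E ⧸ lam.asIdeal) := Fintype.ofFinite _
  have h1 : (Ideal.Quotient.mk lam.asIdeal y) ^ (Ideal.absNorm lam.asIdeal - 1) = 1 := by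
    have h2 : Ideal.Quotient.mk lam.asIdeal y ≠ 0 := by
      rwa [Ne, Ideal.Quotient.eq_zero_iff_mem]
    have h3 := FiniteField.pow_card_sub_one_eq_one _ h2
    rwa [← Nat.card_eq_fintype_card, card_quot] at h3
  have h4 : y ^ (Ideal.absNorm lam.asIdeal - 1) - 1 ∈ lam.asIdeal := by
    rw [← Ideal.Quotient.eq_zero_iff_mem, map_sub, map_pow, map_one, h1, sub_self]
  have h5 : φ (y ^ (Ideal.absNorm lam.asIdeal - 1) - 1) = 0 := by
    rw [← RingHom.mem_ker, hφ]
    exact h4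
  rw [map_sub, map_pow, map_one, sub_eq_zero] at h5
  exact h5

theorem exists_k (lam : HeightOneSpectrum (𝓞 E)) :
    ∃ (k : Type) (_ : Field k) (_ : IsAlgClosed k) (φ : 𝓞 E →+* k),
      RingHom.ker φ = lam.asIdeal := by
  have hmax : lam.asIdeal.IsMaximal := lam.isMaximal
  let _ : Field (𝓞 E ⧸ lam.asIdeal) := Ideal.Quotient.field lam.asIdeal
  refine ⟨AlgebraicClosure (𝓞 E ⧸ lam.asIdeal), inferInstance, inferInstance,
    (algebraMap (𝓞 E ⧸ lam.asIdeal) (AlgebraicClosure (𝓞 E ⧸ lam.asIdeal))).comp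
      (Ideal.Quotient.mk lam.asIdeal), ?_⟩
  rw [RingHom.ker_comp_of_injective _ (RingHom.injective _), Ideal.mk_ker]

end fields

/-- integers which are primitive roots -/
theorem exists_prim (l : ℕ) (hl : l.Prime) : ∃ g : ℤ, ∀ (k : Type) [Field k], (l : k) = 0 →
    (g : k) ≠ 0 ∧ ∀ j : ℕ, (g : k) ^ j = 1 → l - 1 ∣ j := by
  have : Fact l.Prime := ⟨hl⟩
  obtain ⟨u, hu⟩ := IsCyclic.exists_generator (α := (ZMod l)ˣ)
  have hord : orderOf u = l - 1 := by
    rw [orderOf_eq_card_of_forall_mem_zpowers hu, Nat.card_eq_fintype_card,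
      ZMod.card_units_eq_totient, Nat.totient_prime hl]
  refine ⟨((u : ZMod l).val : ℤ), fun k _ hk => ?_⟩
  have hchar : CharP k l := (CharP.charP_iff_prime_eq_zero hl).2 hk
  let f : ZMod l →+* k := ZMod.castHom (dvd_refl l) k
  have hinj : Function.Injective f := RingHom.injective f
  have hf : ((((u : ZMod l).val : ℕ) : ℤ) : k) = f u := by
    have h1 : f (((u : ZMod l).val : ℕ) : ZMod l) = (((u : ZMod l).val : ℕ) : k) := map_natCast f _
    rw [ZMod.natCast_zmod_val] at h1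
    rw [h1]
    push_cast
    rfl
  rw [hf]
  refine ⟨?_, fun j hj => ?_⟩
  · rw [Ne, map_eq_zero]
    exact u.ne_zero
  · rw [← hord]
    refine orderOf_dvd_of_pow_eq_one ?_
    apply Units.ext
    apply hinj
    rw [Units.val_pow_eq_pow_val, map_pow, hj, Units.val_one, map_one]

/-- **PART 1** -/
theorem main : S_Str := by
  intro K E _ _ _ _ hcard N m hN hm
  classical
  obtain ⟨B1, hB1⟩ := Pool.Agent.H500.HC.all_Crt K E hcard
  obtain ⟨B2, hB2⟩ := Pool.Agent.H500.HC.all_Exp K E hcard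
  refine ⟨max (max B1 B2) (max N m), ?_⟩
  intro lam hl hB θ hθo hθm hθu
  have hb1 : B1 < Ideal.absNorm lam.asIdeal :=
    ((le_max_left _ _).trans (le_max_left _ _)).trans_lt hB
  have hb2 : B2 < Ideal.absNorm lam.asIdeal :=
    ((le_max_right _ _).trans (le_max_left _ _)).trans_lt hB
  have hb3 : N < Ideal.absNorm lam.asIdeal :=
    ((le_max_left _ _).trans (le_max_right _ _)).trans_lt hB
  have hb4 : m < Ideal.absNorm lam.asIdeal :=
    ((le_max_right _ _).trans (le_max_right _ _)).trans_lt hB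
  obtain ⟨l, hldef⟩ : ∃ l : ℕ, l = Ideal.absNorm lam.asIdeal := ⟨_, rfl⟩
  have hcrt := hB1 lam hl hb1
  have hexp := hB2 lam hl hb2
  have hfer := fun {k : Type} [Field k] {φ : 𝓞 E →+* k} (h : RingHom.ker φ = lam.asIdeal)
    {y : 𝓞 E} (hy : y ∉ lam.asIdeal) => fermat hl h hy
  have hlmem : ((l : ℕ) : 𝓞 E) ∈ lam.asIdeal := by
    rw [hldef]
    exact Ideal.absNorm_mem lam.asIdeal
  rw [← hldef] at hl hb3 hb4 hθu hcrt hexp ⊢
  simp only [← hldef] at hfer
  have hlN : ¬ l ∣ N := fun h => by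
    have := Nat.le_of_dvd (by omega) h
    omega
  have hlm : ¬ l ∣ m := fun h => by
    have := Nat.le_of_dvd hm h
    omega
  have hNp : 0 < N ^ (m + 2) := by positivity
  have hlNp : ¬ l ∣ N ^ (m + 2) := fun h => hlN (hl.dvd_of_dvd_pow h)
  obtain ⟨k, _, _, φ, hφ⟩ := exists_k lam
  have hlk : (l : k) = 0 := by
    rw [← hφ, RingHom.mem_ker, map_natCast] at hlmem
    exact hlmem
  have hchar : CharP k l := (CharP.charP_iff_prime_eq_zero hl).2 hlk
  have hmk : (m : k) ≠ 0 := fun h => hlm ((CharP.cast_eq_zero_iff k l m).1 h)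
  have _ : NeZero m := ⟨hm.ne'⟩
  have _ : NeZero (m : k) := ⟨hmk⟩
  obtain ⟨ι⟩ : Nonempty (rootsOfUnity m ℂ ≃* rootsOfUnity m k) := by
    have h1 := HasEnoughRootsOfUnity.natCard_rootsOfUnity ℂ m
    have h2 := HasEnoughRootsOfUnity.natCard_rootsOfUnity k m
    exact ⟨mulEquivOfCyclicCardEq (h1.trans h2.symm)⟩
  -- the character of the ideals
  obtain ⟨χ, e, hχ1, hχ2, hχ3, hχ4⟩ := Pool.Agent.H500.AS.all_Bridge K (N * l) ℂ θ
    (Nat.mul_ne_zero (by omega) hl.ne_zero) hθo (fun v hv σ hσ => hθu v hv σ hσ)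
  have hχm : ∀ a, χ a ≠ 0 → χ a ^ m = 1 := by
    intro a ha
    obtain ⟨σ, hσ⟩ := hχ4 a ha
    rw [hσ, ← Units.val_pow_eq_pow_val, hθm, Units.val_one]
  refine ⟨χ, ⟨hχ1, hχ3⟩, ?_⟩
  -- its image in `k`
  obtain ⟨χ', hχ'⟩ : ∃ χ' : Ideal (𝓞 K) →*₀ k, χ' = trChar ι χ hχm := ⟨_, rfl⟩
  have hχ'1 : ∀ a, χ' a = tr ι (χ a) := fun a => by rw [hχ', trChar_apply]
  have hχ'0 : ∀ a, χ' a ≠ 0 ↔ χ a ≠ 0 := fun a => by rw [hχ', trChar_ne]
  have hray : IsRayChar (N ^ (m + 2) * l) χ' := by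
    refine Pool.Agent.H500.AS.all_Mod K N l e m k χ' hN hl hlN hlk ?_ ?_ ?_
    · intro 𝔞 h𝔞
      rw [hχ'0]
      exact hχ1 𝔞 h𝔞
    · intro x hx
      rw [hχ'1, hχ2 x hx, tr_one]
    · intro 𝔞 h𝔞
      rw [hχ'0] at h𝔞
      refine ⟨m, ?_, fun r hr _ hdvd => ?_⟩
      · rw [hχ'1]
        exact tr_pow ι (hχm _ h𝔞)
      · have h1 := Nat.le_of_dvd hm hdvd
        have h2 : m + 1 < r ^ (m + 1) := Nat.lt_pow_self hr.one_lt
        omega
  obtain ⟨a, ha⟩ := hexp (N ^ (m + 2)) hNp hlNp k φ hφ χ' hray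
  -- nonvanishing
  have hφne : ∀ {y : 𝓞 E}, y ∉ lam.asIdeal → φ y ≠ 0 := by
    intro y hy h
    apply hy
    rw [← hφ]
    exact h
  have hχne : ∀ x : 𝓞 K, InRay (N ^ (m + 2)) x → (∀ σ : K →+* E, em σ x ∉ lam.asIdeal) →
      χ (Ideal.span {x}) ≠ 0 := by
    intro x hx hxl
    rw [← hχ'0, ha x hx hxl]
    exact Finset.prod_ne_zero_iff.2 fun σ _ => pow_ne_zero _ (hφne (hxl σ))
  -- the exponents
  obtain ⟨g, hg⟩ := exists_prim l hl
  obtain ⟨hg0, hg1⟩ := hg k hlk
  have hdiv : ∀ σ, l - 1 ∣ m * a σ := by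
    intro σ
    obtain ⟨y, hy1, hy2⟩ := hcrt.2 (N ^ (m + 2)) hNp hlNp (fun τ => if τ = σ then g else 1)
    have hy3 : ∀ τ, φ (em τ y) = if τ = σ then (g : k) else 1 := by
      intro τ
      have h1 := hy2 τ
      rw [← hφ, RingHom.mem_ker, map_sub, map_intCast, sub_eq_zero] at h1
      rw [h1]
      split_ifs
      · rfl
      · exact Int.cast_one
    have hy4 : ∀ τ, em τ y ∉ lam.asIdeal := by
      intro τ h
      rw [← hφ, RingHom.mem_ker, hy3] at h
      split_ifs at h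
      · exact hg0 h
      · exact one_ne_zero h
    have h5 := ha y hy1 hy4
    have h6 : ∏ τ, φ (em τ y) ^ a τ = (g : k) ^ a σ := by
      rw [Finset.prod_eq_single σ]
      · rw [hy3, if_pos rfl]
      · intro τ _ hτ
        rw [hy3, if_neg hτ, one_pow]
      · intro h
        exact absurd (Finset.mem_univ σ) h
    rw [h6] at h5
    have h7 : χ' (Ideal.span {y}) ^ m = 1 := by
      rw [hχ'1]
      exact tr_pow ι (hχm _ (hχne y hy1 hy4))
    rw [h5, ← pow_mul, mul_comm] at h7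
    exact hg1 _ h7
  by_cases hall : ∀ σ, l - 1 ∣ a σ
  · left
    intro x hx hxl
    have h1 := ha x hx hxl
    have h2 : ∏ σ, φ (em σ x) ^ a σ = 1 := by
      refine Finset.prod_eq_one fun σ _ => ?_
      obtain ⟨b, hb⟩ := hall σ
      rw [hb, pow_mul, hfer hφ (hxl σ), one_pow]
    rw [h2, hχ'1] at h1
    exact tr_eq_one ι (hχm _ (hχne x hx hxl)) h1
  · right
    have hl1 : 0 < l - 1 := by
      have := hl.two_le
      omega
    obtain ⟨r, D, c, q, hr, hrm, hrl, hc1, hc2, hD, hac⟩ := divis (l - 1) m hl1 a hdiv hall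
    refine ⟨r, c, hr, hrm, hrl, hc1, hc2, ?_⟩
    intro x hx hxl hx1
    have h1 := ha x hx hxl
    rw [hχ'1, hx1, tr_one] at h1
    have h2 : φ (typ c x) = ∏ σ, φ (em σ x) ^ c σ := by
      unfold typ
      rw [map_prod]
      exact Finset.prod_congr rfl fun σ _ => map_pow _ _ _
    -- `z`
    have h3 : (∏ σ, φ (em σ x) ^ (c σ + r * q σ)) ^ D = 1 := by
      rw [h1, ← Finset.prod_pow]
      refine Finset.prod_congr rfl fun σ _ => ?_
      rw [← pow_mul, ← hac σ]
    have h4 : (∏ σ, φ (em σ x) ^ (c σ + r * q σ)) ^ ((l - 1) / r) = 1 := by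
      obtain ⟨u, hu⟩ := hD
      rw [hu, pow_mul, h3, one_pow]
    have h5 : (∏ σ, φ (em σ x) ^ (c σ + r * q σ)) ^ ((l - 1) / r) =
        (∏ σ, φ (em σ x) ^ c σ) ^ ((l - 1) / r) := by
      rw [← Finset.prod_pow, ← Finset.prod_pow]
      refine Finset.prod_congr rfl fun σ _ => ?_
      have h6 : r * ((l - 1) / r) = l - 1 := Nat.mul_div_cancel' hrl
      rw [pow_add, mul_pow, ← pow_mul _ (r * q σ), show r * q σ * ((l - 1) / r) =
        (r * ((l - 1) / r)) * q σ by ring, h6, pow_mul, hfer hφ (hxl σ), one_pow, mul_one]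
    rw [← hφ, RingHom.mem_ker, map_sub, map_pow, map_one, h2, ← h5, h4, sub_self]

end Pool.Agent.H294.R2.Str
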